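import Pool.Agent.U137.HB.Spectrum

set_option autoImplicit false

/-!
# Hoffman's bound for edge weights of bounded rank

For every forest `F`, every `k` and every `t` there is `c > 0` such that the following holds for every
finite graph `G` without induced `F` and without a clique on `k` vertices. Let `X(v) ∈ ℝ^t` be vectors
with `⟨X(u), X(v)⟩ ≥ 0` for all edges `u v`, and let `W` be the weighted adjacency matrix with the
entries `⟨X(u), X(v)⟩` on the edges. Then `λ_min(W) ≤ - c λ_max(W)`. So Hoffman's lower bound
`1 - λ_max(W) / λ_min(W)` for the chromatic number of `G` is at most `1 + 1 / c`.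

For `t = 1` the weights are `x(u) x(v)`, with arbitrary vertex weights `x ≥ 0`; `x = 1` is the adjacency
matrix and `x(v) = deg(v)^(-1/2)` the normalised adjacency matrix. The maximum of Hoffman's bound over
all nonnegative edge weights is the vector chromatic number of Karger, Motwani and Sudan; every
nonnegative weighting of the edges has the form above for some `t`, and here `c` depends on `t`. The
statement, with `c` independent of `t`, is a consequence of the Gyárfás–Sumner conjecture.

Proof.
1. (Vertex weights.) Attach a pendant vertex to every vertex of `F`; the new forest `F'` has no twins.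
   So, if the vertices of `G` are replaced by independent sets of arbitrary sizes, the new graph has no
   induced `F'` and no `k`-clique. The theorem on large cuts of the hand-in `LargeCutsAllGraphs`
   (`Pool.Agent.U797.GC.main_all`), applied to these graphs, gives signs `s` with
   `∑ x(u) x(v) s(u) s(v) ≤ - c ∑ x(u) x(v)` (sums over the adjacent pairs), first with real numbers
   `|s(v)| ≤ 1` and then, as the form is affine in each variable, with signs.
2. (Bounded rank.) The vertices are divided into `r(t, c)` classes according to the direction of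
   `X(v)`, such that `W(u,v) ≥ (1 - c/2) |X(u)| |X(v)|` for the edges in a class. If a good proportion
   of the weight is inside the classes, the signs of 1. in the classes are combined with random signs
   for the classes. If not, a pair of classes with large weight between them gets opposite signs. So
   there are signs `s` with `∑ W(u,v) s(u) s(v) ≤ - c' ∑ W(u,v)`.
3. (Eigenvalues.) If `f` is an eigenvector of `W` for the eigenvalue `a > 0`, apply 2. to the vectors
   `|f(v)| X(v)`: the vector `s |f|` has Rayleigh quotient at most `- c' a` with respect to `W`.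
-/

namespace Pool.Agent.Results.MP_763321_co.HoffmanBound

open Pool.Agent.U137.HB
open scoped Matrix

/-- The weighted adjacency matrix of `G`: the entry at `(u, v)` is the scalar product of `X u` and `X v`
if `u` and `v` are adjacent, and `0` otherwise. -/
noncomputable def weights {V : Type} (G : SimpleGraph V) {t : ℕ} (X : V → Fin t → ℝ) :
    Matrix V V ℝ :=
  open Classical in fun u v => if G.Adj u v then X u ⬝ᵥ X v else 0

theorem weights_eq {V : Type} (G : SimpleGraph V) {t : ℕ} (X : V → Fin t → ℝ) :
    weights G X = fun u v => WX G X u v := by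
  classical
  funext u v
  unfold weights WX
  rfl

theorem bW_eq {V : Type} [Fintype V] (G : SimpleGraph V) {t : ℕ} (X : V → Fin t → ℝ) (f : V → ℝ) :
    f ⬝ᵥ (weights G X *ᵥ f) = bW (WX G X) f f := by
  classical
  rw [weights_eq]
  unfold bW dotProduct Matrix.mulVec dotProduct
  refine Finset.sum_congr rfl fun u _ => ?_
  rw [Finset.mul_sum]
  refine Finset.sum_congr rfl fun v _ => ?_
  ring

theorem result (m : ℕ) (F : SimpleGraph (Fin m)) (hF : F.IsAcyclic) (k t : ℕ) :
    ∃ c : ℝ, 0 < c ∧ ∀ (V : Type) [Fintype V] [DecidableEq V] (G : SimpleGraph V),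
      ¬ F.IsIndContained G → G.CliqueFree k →
      ∀ X : V → Fin t → ℝ, (∀ u v, G.Adj u v → 0 ≤ X u ⬝ᵥ X v) →
        ∀ a ∈ spectrum ℝ (weights G X), ∃ b ∈ spectrum ℝ (weights G X), b ≤ -(c * a) := by
  classical
  obtain ⟨c, hc, H⟩ := rank_cut m F hF k t
  refine ⟨c, hc, ?_⟩
  intro V _ _ G hFG hfree X hX a ha
  rcases le_or_gt a 0 with ha0 | ha0
  · refine ⟨a, ha, ?_⟩
    nlinarith
  -- an eigenvector
  obtain ⟨f, hf0, hf⟩ : ∃ f : V → ℝ, f ≠ 0 ∧ weights G X *ᵥ f = a • f := by
    rw [spectrum.mem_iff, Matrix.isUnit_iff_isUnit_det, isUnit_iff_ne_zero, not_not,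
      ← Matrix.exists_mulVec_eq_zero_iff] at ha
    obtain ⟨f, hf0, hf⟩ := ha
    refine ⟨f, hf0, ?_⟩
    rw [Matrix.sub_mulVec, Algebra.algebraMap_eq_smul_one, Matrix.smul_mulVec,
      Matrix.one_mulVec, sub_eq_zero] at hf
    exact hf.symm
  obtain ⟨s, hs1, hs2⟩ := H V G hFG hfree (fun v i => |f v| * X v i) (by
    intro u v huv
    have e : ∑ i, |f u| * X u i * (|f v| * X v i) = |f u| * |f v| * (X u ⬝ᵥ X v) := by
      unfold dotProduct
      rw [Finset.mul_sum]
      exact Finset.sum_congr rfl fun i _ => by ring
    rw [e]
    exact mul_nonneg (mul_nonneg (abs_nonneg _) (abs_nonneg _)) (hX u v huv))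
  have hWX : ∀ u v, WX G (fun v i => |f v| * X v i) u v = |f u| * |f v| * WX G X u v := by
    intro u v
    unfold WX
    split_ifs
    · rw [Finset.mul_sum]
      exact Finset.sum_congr rfl fun i _ => by ring
    · rw [mul_zero]
  have hW0 : ∀ u v, 0 ≤ WX G X u v := WX_nonneg hX
  obtain ⟨g, hg⟩ : ∃ g : V → ℝ, g = fun v => s v * |f v| := ⟨_, rfl⟩
  have hs : ∀ v, s v * s v = 1 := by
    intro v
    rcases hs1 v with h | h <;> rw [h] <;> norm_num
  have hgg : g ⬝ᵥ g = f ⬝ᵥ f := by
    unfold dotProduct
    refine Finset.sum_congr rfl fun v _ => ?_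
    rw [hg]
    have : s v * |f v| * (s v * |f v|) = (s v * s v) * (|f v| * |f v|) := by ring
    beta_reduce
    rw [this, hs, abs_mul_abs_self, one_mul]
  have hff : 0 < f ⬝ᵥ f := by
    have h0 : 0 ≤ f ⬝ᵥ f := Finset.sum_nonneg fun v _ => mul_self_nonneg (f v)
    rcases h0.eq_or_lt with h | h
    · exact absurd (dotProduct_self_eq_zero.1 h.symm) hf0
    · exact h
  have hg0 : g ≠ 0 := by
    rintro rfl
    rw [zero_dotProduct] at hgg
    linarith
  have h1 : bW (WX G X) g g = bW (WX G (fun v i => |f v| * X v i)) s s := by
    unfold bW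
    refine Finset.sum_congr rfl fun u _ => Finset.sum_congr rfl fun v _ => ?_
    rw [hWX, hg]
    ring
  have h2 : a * (f ⬝ᵥ f) ≤ bW (WX G (fun v i => |f v| * X v i)) (fun _ => 1) (fun _ => 1) := by
    have h3 : a * (f ⬝ᵥ f) = bW (WX G X) f f := by
      rw [← bW_eq, hf, dotProduct_smul, smul_eq_mul]
    rw [h3]
    unfold bW
    refine Finset.sum_le_sum fun u _ => Finset.sum_le_sum fun v _ => ?_
    rw [hWX]
    have h4 : f u * f v ≤ |f u| * |f v| := by
      rw [← abs_mul]
      exact le_abs_self _
    have h5 := mul_le_mul_of_nonneg_left h4 (hW0 u v)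
    linarith
  have hherm : (weights G X).IsHermitian := by
    ext u v
    rw [Matrix.conjTranspose_apply, star_trivial, weights_eq]
    exact WX_symm X v u
  obtain ⟨b, hb1, hb2⟩ := exists_eigenvalue (weights G X) hherm g hg0 (-(c * a)) (by
    rw [bW_eq, h1, hgg]
    have := mul_le_mul_of_nonneg_left h2 hc.le
    linarith)
  exact ⟨b, hb1, hb2⟩

end Pool.Agent.Results.MP_763321_co.HoffmanBound
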