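import Pool.Agent.U797.DG.Rand

set_option autoImplicit false

/-!
# Fractional colourings of graphs without an induced forest: orientations and degeneracy

For every forest `F` and every `k` there are `ε > 0` and `c > 0` with the following properties.  Let `G` be
a finite graph without induced `F` and without a clique on `k` vertices.

1. Orient the edges of `G` in any way (there may be cycles, and edges may be divided between their ends),
   and let `b(v)` be the out-degree of `v`.  There is a random independent set of `G` which contains every
   vertex `v` with probability at least `c / (1 + b(v)) ^ (1 - ε)`.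
2. In particular, for every linear order of the vertices, `b(v)` can be the number of the neighbours
   of `v` which are before `v`.
3. In particular, if `G` is `d`-degenerate, then there is a random independent set which contains every vertex
   with probability at least `c / (1 + d) ^ (1 - ε)`, that is, the fractional chromatic number of `G` is at
   most `(1 + d) ^ (1 - ε) / c`.

The starting file `FractionalColouring` has the degree `d(v)` and the maximum degree in place of `b(v)` and
`d` (every edge is divided in two equal parts).  The Gyárfás–Sumner conjecture says that the chromatic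
number, so also the fractional chromatic number, is bounded.  For every `F` with a cycle only a logarithmic
improvement of the bound `d + 1` is possible (random graphs).  In general the passage from the maximum
degree to the degeneracy is not a formality: a `K_r`-free graph of maximum degree `Δ` has chromatic number
`O(Δ log log Δ / log Δ)` (Johansson), but for `r > 3` there are `d`-degenerate `K_r`-free graphs with
fractional chromatic number at least `c d / log log d` and more (Bradač, Fox, Steiner, Sudakov, Zhang).

Proof.  Let `w > 0` be vertex weights, give the edge `xy` the weight `min(w(x), w(y))`, and let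
`tot(U)` be twice the weight of the edges inside `U`.

* Large cuts (`main_cut`).  Let `Δ` be such that `∑ min(w(x), w(y)) ≤ Δ w(x)` for all `x` (sum over the
  neighbours `y` of `x`) and assume that the weight of all edges is at least a positive proportion of
  `Δ ∑ w(x)`.  Then there is a cut with at least `1/2 + c` of the weight of the edges.  There may be
  many edges `xy` such that `w(x)` is much smaller than `w(y)`: these edges have weight `w(x)`, and `y` can
  have an arbitrarily large degree.  The graph is divided in layers of nearly equal weights.  If the weights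
  of most edges are inside the layers, the theorem on nearly regular graphs of the starting file
  `LargeCuts` applies (`flat`).  If not, a division of the vertices in classes, as in `RandomCuts`, with
  random walks to vertices of much larger weight, gives the cut: if the sets of the vertices `v` with a
  positive proportion of their weighted degree going up to vertices of the former set do not end, a random
  walk indexed by the tree is an induced copy of `F` with positive probability (`no_copy`, `hit`, `spec`,
  `local`).
* Independent sets (`indep`).  Let `D ≥ 1` be such that the weight of all edges is at most `D ∑ w(x)`.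
  Among the sets `U` of weight at least `σ w(V)` take one with `tot(U) / w(U) ^ (2 + τ)` minimal.  The
  removal of one vertex shows that the weighted degrees in `U` are bounded as above, so there is a large cut of
  `U`, contrary to the choice of `U`, if `w(U)` is not very small.  So `tot(U) ≤ w(U) / 2`, and the vertices of
  `U` which are heavier than all their neighbours in `U` are an independent set of weight at least
  `c w(V) / D ^ (1 - ε)`.
* For a fractional orientation, in the class of the vertices with `2 ^ i ≤ 1 + b(v) < 2 ^ (i + 1)` the weight
  of the edges is at most `∑ w(v) b(v)`, as `min(w(x), w(y))` is at most every average of `w(x)`, `w(y)`.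
  The minimax theorem gives the random independent set.
-/

namespace Pool.Agent.Results.MP_763321_co.Orientations

open Finset Pool.Agent.U797.DG

/-- `p` is the distribution of a random independent set of `G`. -/
structure RandomIndep {V : Type} [Fintype V] (G : SimpleGraph V) (p : Finset V → ℝ) : Prop where
  nonneg : ∀ I, 0 ≤ p I
  total : ∑ I, p I = 1
  indep : ∀ I, p I ≠ 0 → G.IsIndepSet (I : Set V)

open Classical in
/-- the probability that the random set contains `v` -/
noncomputable def prob {V : Type} [Fintype V] (p : Finset V → ℝ) (v : V) : ℝ :=
  ∑ I ∈ univ.filter (fun I => v ∈ I), p I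

/-- `β` is a fractional orientation of `G`: the ends of the edge `xy` get the shares `β x y`, `β y x`. -/
structure FracOrient {V : Type} (G : SimpleGraph V) (β : V → V → ℝ) : Prop where
  nonneg : ∀ x y, 0 ≤ β x y
  edge : ∀ x y, G.Adj x y → 1 ≤ β x y + β y x

open Classical in
theorem degenerate_aux {V : Type} [Fintype V] (G : SimpleGraph V) (d : ℕ)
    (h : ∀ U : Finset V, U.Nonempty → ∃ v ∈ U, (U.filter (fun u => G.Adj v u)).card ≤ d) :
    ∀ (n : ℕ) (U : Finset V), U.card = n → ∃ β : V → V → ℝ, (∀ x y, 0 ≤ β x y) ∧
      (∀ x ∈ U, ∀ y ∈ U, G.Adj x y → 1 ≤ β x y + β y x) ∧ (∀ x y, x ∉ U → β x y = 0) ∧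
      ∀ x, ∑ y, β x y ≤ d := by
  intro n
  induction n with
  | zero =>
    intro U hU
    rw [card_eq_zero] at hU
    subst hU
    exact ⟨fun _ _ => 0, fun _ _ => le_rfl, by simp, fun _ _ _ => rfl, fun x => by simp⟩
  | succ n ih =>
    intro U hU
    have hne : U.Nonempty := by
      rw [← card_pos]
      omega
    obtain ⟨v, hv, hvd⟩ := h U hne
    obtain ⟨β, h1, h2, h3, h4⟩ := ih (U.erase v) (by rw [card_erase_of_mem hv, hU]; rfl)
    obtain ⟨β', hβ'⟩ : ∃ β' : V → V → ℝ, β' = fun x y =>
        if x = v then (if y ∈ U ∧ G.Adj v y then 1 else 0) else β x y := ⟨_, rfl⟩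
    have hv' : ∀ y, β' v y = if y ∈ U ∧ G.Adj v y then 1 else 0 := by
      intro y
      rw [hβ']
      exact if_pos rfl
    have hx' : ∀ x y, x ≠ v → β' x y = β x y := by
      intro x y hx
      rw [hβ']
      exact if_neg hx
    have hnn : ∀ x y, 0 ≤ β' x y := by
      intro x y
      by_cases hx : x = v
      · rw [hx, hv']
        split_ifs <;> norm_num
      · rw [hx' x y hx]
        exact h1 x y
    refine ⟨β', hnn, ?_, ?_, ?_⟩
    · intro x hx y hy hxy
      by_cases hxv : x = v
      · subst hxv
        have h5 := hnn y x
        rw [hv' y, if_pos ⟨hy, hxy⟩]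
        linarith
      · by_cases hyv : y = v
        · subst hyv
          have h5 := hnn x y
          rw [hv' x, if_pos ⟨hx, hxy.symm⟩]
          linarith
        · rw [hx' x y hxv, hx' y x hyv]
          exact h2 x (mem_erase.2 ⟨hxv, hx⟩) y (mem_erase.2 ⟨hyv, hy⟩) hxy
    · intro x y hx
      have hxv : x ≠ v := fun h => hx (h ▸ hv)
      rw [hx' x y hxv]
      exact h3 x y (fun h => hx (mem_of_mem_erase h))
    · intro x
      by_cases hxv : x = v
      · rw [hxv]
        have h5 : ∑ y, β' v y = ((U.filter (fun u => G.Adj v u)).card : ℝ) := by
          rw [card_filter]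
          push_cast
          rw [← sum_filter_add_sum_filter_not univ (fun y => y ∈ U) (fun y => β' v y)]
          have h6 : ∑ y ∈ univ.filter (fun y => ¬ y ∈ U), β' v y = 0 := by
            apply sum_eq_zero
            intro y hy
            rw [hv' y, if_neg]
            exact fun h => (mem_filter.1 hy).2 h.1
          have h7 : univ.filter (fun y => y ∈ U) = U := by
            ext y
            simp
          rw [h6, add_zero, h7]
          refine sum_congr rfl fun y hy => ?_
          rw [hv' y]
          by_cases h : G.Adj v y
          · rw [if_pos ⟨hy, h⟩, if_pos h]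
          · rw [if_neg (fun h' => h h'.2), if_neg h]
        rw [h5]
        exact_mod_cast hvd
      · rw [sum_congr rfl (fun y _ => hx' x y hxv)]
        exact h4 x

open Classical in
theorem result (m : ℕ) (F : SimpleGraph (Fin m)) (hF : F.IsAcyclic) (k : ℕ) :
    ∃ ε c : ℝ, 0 < ε ∧ ε < 1 ∧ 0 < c ∧ ∀ (V : Type) [Fintype V] (G : SimpleGraph V),
      ¬ F.IsIndContained G → G.CliqueFree k →
      -- orientations
      (∀ β : V → V → ℝ, FracOrient G β → ∃ p : Finset V → ℝ, RandomIndep G p ∧
        ∀ v, c / (1 + ∑ y, β v y) ^ (1 - ε) ≤ prob p v) ∧
      -- linear orders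
      (∀ r : V → ℕ, Function.Injective r → ∃ p : Finset V → ℝ, RandomIndep G p ∧
        ∀ v, c / (1 + ((univ.filter (fun u => G.Adj v u ∧ r u < r v)).card : ℝ)) ^ (1 - ε) ≤
          prob p v) ∧
      -- degenerate graphs
      (∀ d : ℕ, (∀ U : Finset V, U.Nonempty → ∃ v ∈ U, (U.filter (fun u => G.Adj v u)).card ≤ d) →
        ∃ p : Finset V → ℝ, RandomIndep G p ∧ ∀ v, c / (1 + (d : ℝ)) ^ (1 - ε) ≤ prob p v) := by
  obtain ⟨ε, c, hε, hε1, hc, H⟩ := random_orient m F hF k
  refine ⟨ε, c, hε, hε1, hc, ?_⟩
  intro V _ G hFG hfree
  have key : ∀ β : V → V → ℝ, FracOrient G β → ∃ p : Finset V → ℝ, RandomIndep G p ∧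
        ∀ v, c / (1 + ∑ y, β v y) ^ (1 - ε) ≤ prob p v := by
    intro β hβ
    obtain ⟨p, h1, h2, h3, h4⟩ := H V G hFG hfree β hβ.nonneg hβ.edge
    exact ⟨p, ⟨h1, h2, h3⟩, h4⟩
  refine ⟨key, ?_, ?_⟩
  · intro r hr
    obtain ⟨β, hβ⟩ : ∃ β : V → V → ℝ, β = fun x y => if G.Adj x y ∧ r y < r x then 1 else 0 :=
      ⟨_, rfl⟩
    have h0 : ∀ x y, 0 ≤ β x y := by
      intro x y
      rw [hβ]
      dsimp only
      split_ifs <;> norm_num
    obtain ⟨p, hp1, hp2⟩ := key β ⟨h0, by
      intro x y hxy
      have h1 := h0 x y
      have h2 := h0 y x
      rcases lt_or_gt_of_ne (fun h => hxy.ne (hr h)) with h | h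
      · have : β y x = 1 := by rw [hβ]; exact if_pos ⟨hxy.symm, h⟩
        linarith
      · have : β x y = 1 := by rw [hβ]; exact if_pos ⟨hxy, h⟩
        linarith⟩
    refine ⟨p, hp1, fun v => ?_⟩
    have h5 : ∑ y, β v y = ((univ.filter (fun u => G.Adj v u ∧ r u < r v)).card : ℝ) := by
      rw [card_filter, hβ]
      push_cast
      rfl
    rw [← h5]
    exact hp2 v
  · intro d hd
    obtain ⟨β, h1, h2, -, h4⟩ := degenerate_aux G d hd _ univ rfl
    obtain ⟨p, hp1, hp2⟩ := key β ⟨h1, fun x y => h2 x (mem_univ _) y (mem_univ _)⟩
    refine ⟨p, hp1, fun v => le_trans ?_ (hp2 v)⟩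
    have h5 : 0 ≤ ∑ y, β v y := sum_nonneg fun y _ => h1 v y
    apply div_le_div_of_nonneg_left hc.le (by positivity)
    exact Real.rpow_le_rpow (by positivity) (by linarith [h4 v]) (by linarith)

end Pool.Agent.Results.MP_763321_co.Orientations
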