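import Pool.Agent.U234.GS.Main

/-!
# Polynomial Gyárfás–Sumner for graphs with locally robust representations

All graphs are finite, `χ` is the chromatic number, `ω` the clique number, `F` is any forest on `m`
vertices. The bounds are `χ(G) ≤ c A (m + ω(G)) ^ d`, where `A` and `d` depend neither on `F` nor on
`G`; `P` is a `c`-colourable graph of exceptional pairs, about which nothing is assumed. The
hypotheses are local: for every edge `x y` of `G` they only concern the adjacency of the neighbours
`u` of `y` and the neighbours `v` of `x`, and the data may depend on the edge.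

(1) For every edge there are `s` matrices of rank at most `r` over fields and `s'` kernels
`⟨p_t(u), q_t(v)⟩`, given by vectors and functionals of norm at most one of normed spaces of any
dimension whose unit balls are round at the scale `δ / 2`, such that two (non-exceptional) pairs with
the same pattern of zeros of the matrices and kernels that differ by less than `δ` are both adjacent
or both non-adjacent. (2) The same for the vectors of a fixed uniformly convex space, for example
`L^p`, `1 < p < ∞`, and `s = 0` for a purely metric condition. For `ℓ^1` and `ℓ^∞` the condition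
would hold for all graphs.

(3) Margins: for every edge there are vectors of a Hilbert space with `‖p(u)‖ ‖q(v)‖ ≤ K` and
`⟨p(u), q(v)⟩ ≥ θ + 1` for adjacent pairs, `≤ θ` for the other ones. For example, the adjacency matrix
of `G` has factorization norm `γ₂ ≤ K` (it is a Schur multiplier of norm at most `K`), or margin
complexity at most `K`.

(4) Cayley graphs of arbitrary finite groups for which some matrix coefficient `⟨π(g) ξ, ζ⟩`,
`‖ξ‖ ‖ζ‖ ≤ K`, of an orthogonal representation is at least `1` on the set of generators and at most `0`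
at the other elements `≠ 1`; for example if the indicator function of the set of generators has
Fourier–Stieltjes norm at most `K`.

The starting results `ZeroPatterns` and `PolynomialStable` are the case `s' = 0` of (1).

Proof. A theorem of the starting library (`Pool.Agent.N471.ST.stable_chi`) bounds `χ(G)` in the
absence of half-graphs of bounded order. New is that robust functions of kernels on round spaces have
no large half-graphs: if `⟨p_i, q_j⟩ ≥ c` for `i ≤ j` and `≤ c - η` for `i > j`, then the convex hull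
of `2 ^ k` consecutive vectors `p_i` contains a vector of norm at most `1 - k η κ / 4`, by induction on
`k`: the two vectors of the halves are separated by one `q_j`, hence at distance at least `η`, and
their midpoint is shorter. Ramsey's theorem for pairs reduces robust functions of several kernels and
zero patterns to this and to the rank of triangular matrices.
-/

set_option autoImplicit false

namespace Pool.Agent.Results.MP_763321_co.RobustRepresentations

open Pool.Agent.U234.GS

theorem result :
    -- (1) zero patterns of matrices of bounded rank and robust functions of kernels on round spaces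
    (∀ (s r s' : ℕ) (δ κ : ℝ), 0 < δ → 0 < κ → ∃ A d : ℕ,
      ∀ (m : ℕ) (F : SimpleGraph (Fin m)), F.IsAcyclic →
      ∀ (V : Type) [Fintype V] (G P : SimpleGraph V) (c : ℕ), P.Colorable c →
        (∀ x y, G.Adj x y → ∃ (Z : Fin s → LowRank V r) (ρ : Fin s' → Kernel V δ κ),
          ∀ u v u' v', G.Adj y u → G.Adj x v → u ≠ v → ¬ P.Adj u v →
            G.Adj y u' → G.Adj x v' → u' ≠ v' → ¬ P.Adj u' v' →
            (∀ t, (Z t).Zero u v ↔ (Z t).Zero u' v') →
            (∀ t, |(ρ t).val u v - (ρ t).val u' v'| < δ) → (G.Adj u v ↔ G.Adj u' v')) →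
        ¬ F.IsIndContained G →
          G.chromaticNumber ≤ (c * (A * (m + G.cliqueNum) ^ d) : ℕ)) ∧
    -- (2) the same for a uniformly convex space
    (∀ (X : Type) [NormedAddCommGroup X] [NormedSpace ℝ X] [UniformConvexSpace X]
      (s r s' : ℕ) (δ : ℝ), 0 < δ → ∃ A d : ℕ,
      ∀ (m : ℕ) (F : SimpleGraph (Fin m)), F.IsAcyclic →
      ∀ (V : Type) [Fintype V] (G P : SimpleGraph V) (c : ℕ), P.Colorable c →
        (∀ x y, G.Adj x y → ∃ (Z : Fin s → LowRank V r) (p : Fin s' → V → X)
          (q : Fin s' → V → (X →L[ℝ] ℝ)), (∀ t v, ‖p t v‖ ≤ 1 ∧ ‖q t v‖ ≤ 1) ∧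
          ∀ u v u' v', G.Adj y u → G.Adj x v → u ≠ v → ¬ P.Adj u v →
            G.Adj y u' → G.Adj x v' → u' ≠ v' → ¬ P.Adj u' v' →
            (∀ t, (Z t).Zero u v ↔ (Z t).Zero u' v') →
            (∀ t, |q t v (p t u) - q t v' (p t u')| < δ) → (G.Adj u v ↔ G.Adj u' v')) →
        ¬ F.IsIndContained G →
          G.chromaticNumber ≤ (c * (A * (m + G.cliqueNum) ^ d) : ℕ)) ∧
    -- (3) margins in Hilbert spaces
    (∀ K : ℝ, 0 < K → ∃ A d : ℕ, ∀ (m : ℕ) (F : SimpleGraph (Fin m)), F.IsAcyclic →
      ∀ (V : Type) [Fintype V] (G P : SimpleGraph V) (c : ℕ), P.Colorable c →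
        (∀ x y, G.Adj x y → ∃ (H : Type) (_ : NormedAddCommGroup H) (_ : InnerProductSpace ℝ H)
          (p q : V → H) (θ : ℝ), (∀ u v, ‖p u‖ * ‖q v‖ ≤ K) ∧
          ∀ u v, G.Adj y u → G.Adj x v → u ≠ v → ¬ P.Adj u v →
            (G.Adj u v → θ + 1 ≤ inner ℝ (p u) (q v)) ∧
            (¬ G.Adj u v → inner ℝ (p u) (q v) ≤ θ)) →
        ¬ F.IsIndContained G →
          G.chromaticNumber ≤ (c * (A * (m + G.cliqueNum) ^ d) : ℕ)) ∧
    -- (4) Cayley graphs
    (∀ K : ℝ, 0 < K → ∃ A d : ℕ, ∀ (m : ℕ) (F : SimpleGraph (Fin m)), F.IsAcyclic →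
      ∀ (Γ : Type) [Group Γ] [Fintype Γ] (G : SimpleGraph Γ) (S : Set Γ),
        (∀ g h, G.Adj g h ↔ g⁻¹ * h ∈ S) →
        (∃ (H : Type) (_ : NormedAddCommGroup H) (_ : InnerProductSpace ℝ H)
          (π : Γ →* (H ≃ₗᵢ[ℝ] H)) (ξ ζ : H), ‖ξ‖ * ‖ζ‖ ≤ K ∧
          ∀ g, g ≠ 1 → (g ∈ S → 1 ≤ inner ℝ (π g ξ) ζ) ∧ (g ∉ S → inner ℝ (π g ξ) ζ ≤ 0)) →
        ¬ F.IsIndContained G → G.chromaticNumber ≤ (A * (m + G.cliqueNum) ^ d : ℕ)) := by
  refine ⟨?_, ?_, ?_, ?_⟩
  · intro s r s' δ κ hδ hκ
    obtain ⟨A, d, h⟩ := main s r s' δ κ hδ hκ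
    exact ⟨A, d, fun m F hF V _ G P c hP hloc hFG => h m F hF V G P c hP hloc hFG⟩
  · intro X _ _ _ s r s' δ hδ
    obtain ⟨A, d, h⟩ := main_uniform X s r s' δ hδ
    exact ⟨A, d, fun m F hF V _ G P c hP hloc hFG => h m F hF V G P c hP hloc hFG⟩
  · intro K hK
    obtain ⟨A, d, h⟩ := main_margin K hK
    exact ⟨A, d, fun m F hF V _ G P c hP hloc hFG => h m F hF V G P c hP hloc hFG⟩
  · intro K hK
    obtain ⟨A, d, h⟩ := main_cayley K hK
    exact ⟨A, d, fun m F hF Γ _ _ G S hS hrep hFG => h m F hF Γ G S hS hrep hFG⟩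

end Pool.Agent.Results.MP_763321_co.RobustRepresentations
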