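import Pool.Agent.U797.NL.Quant

set_option autoImplicit false

/-!
# The chromatic number of graphs without an induced forest is at most `Δ ^ o(1)`

For every forest `F` and every `k` there are `C` and `c > 0` such that every finite graph `G` without induced
`F`, without a clique on `k` vertices and with all degrees at most `Δ` (`Δ ≥ 1`) has chromatic number at most
`exp (C (1 + log Δ) ^ (1 - c))`.  This is less than `C' Δ ^ ε` for every `ε > 0`, with a constant `C'` depending
on `ε`.  There is no condition on the number of vertices.  (For every graph `F` which is not a forest only a
logarithmic improvement of the bound `Δ + 1` is possible.)  With `Δ < n` this contains the theorem of Nguyen,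
Scott and Seymour on independent sets with `n ^ (1 - o(1))` vertices.

Proof.  Let `D = Δ`, and let `q` be larger than a power of `log D` and than the number of colours which are
needed for the neighbourhoods of the vertices (induction on `k`).  All parameters below are powers of `q`, and
the exponents decrease quickly from level to level; they are at most polynomial in the parameter `K` below.

* Rich sets (`Rich`).  A set `C` of neighbours of `v` is rich of level `i + 1` if every `y ∈ C` has a nonempty
  set `P y` of neighbours which is rich of level `i`, such that for random `y ∈ C`, `x ∈ P y` and for every
  vertex `u` the probability that `x` is a neighbour of `u` is at most `1 / b`.  A nonempty rich set of level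
  `n + 1` gives an induced copy of every tree with `n + 1` vertices (`t_EMB`): the tree is built vertex by vertex,
  and the sets of candidates have few edges to each other and to the vertices which were used.  Disjoint
  unions of rich sets are rich, and so are large subsets, with a smaller `b`.
* Let `L i v` be a maximal rich set of level `i` of neighbours of `v`; then there are no rich sets outside
  `L i v`, and `L (n + 1) v` is empty.  If a set `Z` of neighbours of `v` contains no rich set of level `i + 1`, then
  there are few vertices `u` such that the union `R v` of their neighbourhoods contains almost all of `L i y`,
  for almost all `y ∈ Z` (`t_POT`): vertices `u` are chosen greedily, and a logarithmic potential falls.  It is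
  essential that the size of `R v` depends only logarithmically on the part of `L i y` which is not covered.
* Centres and weights (`t_BRW`, `t_LEVEL`).  The centres are the pairs of a vertex `a` and a colour class `E` of
  a colouring of the neighbours of `a` (by induction on `k`).  A vertex `y ∈ E` which takes the centre `a` has
  almost all of `L i y` in `R a`, and the vertices of `R a` should avoid the colour of `a`.  This works for `y`
  if the total weight of the centres `a'` with `y ∈ R a'` is at most `τ` times the total weight of the centres
  which `y` may take.  By Brouwer's fixed point theorem there are positive weights of the centres such that, for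
  EVERY centre, almost all of its vertices have this property, and moreover the weights of centres near to
  each other differ at most by a power of `D`.  The local lemma gives a colouring of the vertices with this
  property, with few colours (`t_CELLS`, `t_LOC`; vertices with total weights in different dyadic intervals are
  treated separately).
* So (`t_STEP`) the vertices can be divided in `q ^ c 0 + ... + q ^ c (n + 1)` classes such that the `q ^ c i`
  classes of level `i` induce graphs of maximum degree at most `D / q ^ (K c i)`: after the vertices of level
  `i` were removed every remaining vertex has almost all of its remaining neighbours in its set `L i`, and in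
  the end there are no rich sets.  Iteration gives `D ^ (2 / K)` colours times a power of `q` whose exponent is
  polynomial in `K` (`t_ITER2`, `stepQ`); `K` is then taken to be a small power of `1 + log D` (`chiQ`).

The packages `R`, `EMB`, `POT`, `BRW`, `LOC`, `LEVEL`, `ITER2` of the proof were formalised by helper423, helper750,
helper689, helper571, helper978, helper454, helper491 (with helper312).
-/

namespace Pool.Agent.Results.MP_763321_co.SubpolynomialDegree

open Finset

open Classical in
theorem result (m : ℕ) (F : SimpleGraph (Fin m)) (hF : F.IsAcyclic) (k : ℕ) :
    ∃ C c : ℝ, 0 < c ∧ ∀ (V : Type) [Fintype V] (G : SimpleGraph V),
      ¬ F.IsIndContained G → G.CliqueFree k → ∀ Δ : ℕ, 1 ≤ Δ →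
      (∀ v, (univ.filter (fun u => G.Adj v u)).card ≤ Δ) →
      G.Colorable ⌊Real.exp (C * (1 + Real.log Δ) ^ (1 - c))⌋₊ := by
  obtain ⟨C, c, hc, H⟩ := Pool.Agent.U797.NL.chi_forestQ m F hF k
  refine ⟨C, c, hc, ?_⟩
  intro V _ G hFG hfree Δ hΔ hdeg
  exact H V G Δ (by exact_mod_cast hΔ) (fun v => by exact_mod_cast hdeg v) hfree hFG

end Pool.Agent.Results.MP_763321_co.SubpolynomialDegree
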